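import Pool.Agent.H571.FR.RegII
import Pool.Graph.R_seed8.Helper602.PNT

/-! Asymptotic facts. -/

set_option autoImplicit false

namespace Pool.Agent.H571.FR

open Finset Filter Topology

/-- primes in short intervals `(x - x/L, x]` -/
theorem prime_count (L : ℕ) (hL2 : 2 ≤ L) : ∀ᶠ x : ℕ in atTop,
    ((x / L : ℕ) : ℝ) / (2 * Real.log x) ≤ (((Ioc (x - x / L) x).filter Nat.Prime).card : ℝ) := by
  have hL : 1 ≤ L := by omega
  have hL0 : (0 : ℝ) < L := by exact_mod_cast hL
  have hL1 : (1 : ℝ) ≤ L := by exact_mod_cast hL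
  set δ : ℝ := 1 / (8 * L) with hδ
  have hδ0 : 0 < δ := by positivity
  have h1 : ∀ᶠ x : ℝ in atTop, |Chebyshev.theta x / x - 1| < δ := by
    have := (Pool.Agent.Helper602.PNT.theta_div_tendsto).eventually (Metric.ball_mem_nhds 1 hδ0)
    exact this.mono fun x hx => by rwa [Real.dist_eq] at hx
  obtain ⟨X0, hX0⟩ := eventually_atTop.1 h1
  obtain ⟨M, hM⟩ := exists_nat_ge (max X0 1)
  filter_upwards [eventually_ge_atTop (2 * M + 2 * L + 4)] with x hx
  have hM1 : (1 : ℝ) ≤ M := (le_max_right _ _).trans hM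
  have hM0 : X0 ≤ M := (le_max_left _ _).trans hM
  set H : ℕ := x / L with hH
  have hHle : H ≤ x / 2 := Nat.div_le_div_left hL2 (by norm_num)
  set y : ℕ := x - H with hy
  have hyx : y ≤ x := Nat.sub_le _ _
  have hyM : M ≤ y := by omega
  have hMx : M ≤ x := by omega
  have hx0 : (0 : ℝ) < x := by
    have : 0 < x := by omega
    exact_mod_cast this
  have hMy' : (M : ℝ) ≤ y := by exact_mod_cast hyM
  have hMx' : (M : ℝ) ≤ x := by exact_mod_cast hMx
  have hy0 : (0 : ℝ) < y := by linarith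
  have h2 := hX0 (x : ℝ) (hM0.trans hMx')
  have h3 := hX0 (y : ℝ) (hM0.trans hMy')
  have h4 : (1 - δ) * x ≤ Chebyshev.theta x := by
    have : (1 - δ) < Chebyshev.theta x / x := by linarith [(abs_lt.1 h2).1]
    rw [lt_div_iff₀ hx0] at this
    exact this.le
  have h5 : Chebyshev.theta y ≤ (1 + δ) * y := by
    have : Chebyshev.theta y / y < 1 + δ := by linarith [(abs_lt.1 h3).2]
    rw [div_lt_iff₀ hy0] at this
    exact this.le
  have hlog : 0 < Real.log x := Real.log_pos (by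
    have : 2 ≤ x := by omega
    have : (2 : ℝ) ≤ x := by exact_mod_cast this
    linarith)
  have h6 : Chebyshev.theta x - Chebyshev.theta y ≤
      (((Ioc y x).filter Nat.Prime).card : ℝ) * Real.log x := by
    unfold Chebyshev.theta
    rw [Nat.floor_natCast, Nat.floor_natCast]
    have e1 : (Ioc 0 x).filter Nat.Prime = (Ioc 0 y).filter Nat.Prime ∪ (Ioc y x).filter Nat.Prime := by
      rw [← filter_union, Ioc_union_Ioc_eq_Ioc (Nat.zero_le _) hyx]
    have e2 : Disjoint ((Ioc 0 y).filter Nat.Prime) ((Ioc y x).filter Nat.Prime) := by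
      rw [disjoint_left]
      intro p hp hp'
      rw [mem_filter, mem_Ioc] at hp hp'
      omega
    rw [e1, sum_union e2, add_sub_cancel_left, ← nsmul_eq_mul, ← sum_const]
    apply sum_le_sum
    intro p hp
    rw [mem_filter, mem_Ioc] at hp
    have : 0 < p := by omega
    exact Real.log_le_log (by exact_mod_cast this) (by exact_mod_cast hp.1.2)
  rw [div_le_iff₀ (by positivity)]
  have hyr : (y : ℝ) = x - H := by rw [hy, Nat.cast_sub (by omega)]
  have hH1 : (x : ℝ) / L < H + 1 := by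
    rw [div_lt_iff₀ hL0]
    have := Nat.lt_mul_div_succ x (show 0 < L by omega)
    have h : (x : ℝ) < L * ((x / L : ℕ) + 1) := by exact_mod_cast this
    rw [← hH] at h
    linarith
  have hx2L : 2 * (L : ℝ) ≤ x := by
    have : 2 * L ≤ x := by omega
    exact_mod_cast this
  have hxL : (2 : ℝ) ≤ x / L := by rw [le_div_iff₀ hL0]; linarith
  have hδx : δ * x = (x / L) / 8 := by rw [hδ]; field_simp
  have hHpos : (0 : ℝ) ≤ H := by positivity
  have h7 : (H : ℝ) / 2 ≤ Chebyshev.theta x - Chebyshev.theta y := by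
    have h8 : (1 - δ) * (x : ℝ) - (1 + δ) * y ≤ Chebyshev.theta x - Chebyshev.theta y := by linarith
    refine le_trans ?_ h8
    rw [hyr]
    have h9 : (1 - δ) * (x : ℝ) - (1 + δ) * (x - H) = H + δ * H - 2 * (δ * x) := by ring
    rw [h9, hδx]
    have h10 : 0 ≤ δ * H := by positivity
    have h11 : (x : ℝ) / L ≤ 2 * H := by linarith
    linarith
  nlinarith

theorem log_small (c : ℝ) (hc : 0 < c) : ∀ᶠ x : ℕ in atTop,
    Real.log x * (x : ℝ) ^ (15 / 16 : ℝ) ≤ c * x := by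
  have h1 := (isLittleO_log_rpow_atTop (show (0 : ℝ) < 1 / 16 by norm_num)).bound hc
  have h2 := tendsto_natCast_atTop_atTop (R := ℝ) |>.eventually h1
  filter_upwards [h2, eventually_ge_atTop 1] with x hx hx1
  have hx0 : (0 : ℝ) < x := by exact_mod_cast hx1
  have hx1' : (1 : ℝ) ≤ x := by exact_mod_cast hx1
  rw [Real.norm_of_nonneg (Real.log_nonneg hx1'), Real.norm_of_nonneg (by positivity)] at hx
  calc Real.log x * (x : ℝ) ^ (15 / 16 : ℝ) ≤ c * (x : ℝ) ^ (1 / 16 : ℝ) * (x : ℝ) ^ (15 / 16 : ℝ) :=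
        mul_le_mul_of_nonneg_right hx (by positivity)
    _ = c * x := by
        rw [mul_assoc, ← Real.rpow_add hx0]
        norm_num

theorem totient_ge {a : ℕ} (ha : 1 ≤ a) : (a : ℝ) ≤ Nat.totient a * (Nat.divisors a).card := by
  have ha0 : a ≠ 0 := by omega
  have h1 := Pool.Agent.Helper112.ratio_eq a ha0
  have hφ : (0 : ℝ) < Nat.totient a := by exact_mod_cast Nat.totient_pos.2 ha
  have h2 : (a : ℝ) / Nat.totient a ≤ (Nat.divisors a).card := by
    rw [h1, Nat.card_divisors ha0]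
    push_cast
    apply Finset.prod_le_prod
    · intro p hp
      have := (Nat.prime_of_mem_primeFactors hp).two_le
      have : (2 : ℝ) ≤ p := by exact_mod_cast this
      exact div_nonneg (by linarith) (by linarith)
    · intro p hp
      have hpp := Nat.prime_of_mem_primeFactors hp
      have := hpp.two_le
      have h3 : (2 : ℝ) ≤ p := by exact_mod_cast this
      have h4 : 1 ≤ a.factorization p :=
        (hpp.dvd_iff_one_le_factorization ha0).1 (Nat.dvd_of_mem_primeFactors hp)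
      have h5 : (1 : ℝ) ≤ a.factorization p := by exact_mod_cast h4
      rw [div_le_iff₀ (by linarith)]
      nlinarith
  rw [div_le_iff₀ hφ] at h2
  linarith

theorem tau_small (K : ℕ) : ∃ A : ℕ, ∀ a : ℕ, A ≤ a →
    K * ((Nat.divisors a).card * Real.sqrt (20 * K * (a * Real.sqrt a))) ≤ Nat.totient a := by
  obtain ⟨C, hC0, hC⟩ := Pool.Agent.Helper112.divisor_bound (1 / 16) (by norm_num)
  set D : ℝ := K * C ^ 2 * Real.sqrt (20 * K) with hD
  have hD0 : 0 ≤ D := by positivity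
  have h1 : ∀ᶠ a : ℕ in atTop, D ≤ (a : ℝ) ^ (1 / 8 : ℝ) :=
    ((tendsto_rpow_atTop (show (0 : ℝ) < 1 / 8 by norm_num)).comp
      tendsto_natCast_atTop_atTop).eventually (eventually_ge_atTop D)
  obtain ⟨A, hA⟩ := eventually_atTop.1 (h1.and (eventually_ge_atTop 1))
  refine ⟨A, fun a ha => ?_⟩
  obtain ⟨h2, h3⟩ := hA a ha
  have ha0 : (0 : ℝ) < a := by exact_mod_cast h3
  have hτ := hC a h3
  set τ : ℝ := ((Nat.divisors a).card : ℝ) with hτd
  have hτ0 : 0 < τ := by
    rw [hτd]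
    have : 0 < (Nat.divisors a).card := card_pos.2 ⟨1, Nat.one_mem_divisors.2 (by omega)⟩
    exact_mod_cast this
  have h4 := totient_ge h3
  rw [← hτd] at h4
  have h5 : Real.sqrt (20 * K * (a * Real.sqrt a)) = Real.sqrt (20 * K) * (a : ℝ) ^ (3 / 4 : ℝ) := by
    rw [Real.sqrt_mul (by positivity)]
    congr 1
    rw [Real.sqrt_eq_rpow, Real.sqrt_eq_rpow, ← Real.rpow_one_add' ha0.le (by norm_num),
      ← Real.rpow_mul ha0.le]
    norm_num
  -- it is enough to compare after multiplying by `τ`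
  have h6 : τ * (K * (τ * Real.sqrt (20 * K * (a * Real.sqrt a)))) ≤ a := by
    rw [h5]
    have h7 : τ ^ 2 ≤ C ^ 2 * (a : ℝ) ^ (1 / 8 : ℝ) := by
      calc τ ^ 2 ≤ (C * (a : ℝ) ^ (1 / 16 : ℝ)) ^ 2 := pow_le_pow_left₀ hτ0.le hτ 2
        _ = C ^ 2 * (a : ℝ) ^ (1 / 8 : ℝ) := by
            rw [mul_pow, ← Real.rpow_natCast, ← Real.rpow_natCast, ← Real.rpow_mul ha0.le]
            norm_num
    calc τ * (K * (τ * (Real.sqrt (20 * K) * (a : ℝ) ^ (3 / 4 : ℝ))))
        = τ ^ 2 * (K * Real.sqrt (20 * K) * (a : ℝ) ^ (3 / 4 : ℝ)) := by ring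
      _ ≤ (C ^ 2 * (a : ℝ) ^ (1 / 8 : ℝ)) * (K * Real.sqrt (20 * K) * (a : ℝ) ^ (3 / 4 : ℝ)) :=
          mul_le_mul_of_nonneg_right h7 (by positivity)
      _ = D * ((a : ℝ) ^ (1 / 8 : ℝ) * (a : ℝ) ^ (3 / 4 : ℝ)) := by rw [hD]; ring
      _ = D * (a : ℝ) ^ (7 / 8 : ℝ) := by rw [← Real.rpow_add ha0]; norm_num
      _ ≤ (a : ℝ) ^ (1 / 8 : ℝ) * (a : ℝ) ^ (7 / 8 : ℝ) :=
          mul_le_mul_of_nonneg_right h2 (by positivity)
      _ = a := by rw [← Real.rpow_add ha0]; norm_num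
  have h8 : τ * (K * (τ * Real.sqrt (20 * K * (a * Real.sqrt a)))) ≤ τ * Nat.totient a := by
    linarith
  exact le_of_mul_le_mul_left h8 hτ0

end Pool.Agent.H571.FR
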