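import Pool.Agent.H571.FR.Weyl

/-! The Fejer kernel. -/

set_option autoImplicit false

namespace Pool.Agent.H571.FR

open Finset Pool.Agent.Helper170.Weyl

/-- the Fejer kernel -/
noncomputable def FK (K : ℕ) (t : ℝ) : ℝ := ‖∑ k ∈ range K, e (k * t)‖ ^ 2 / K

theorem FK_nonneg (K : ℕ) (t : ℝ) : 0 ≤ FK K t := by unfold FK; positivity

theorem FK_lower {K : ℕ} (hK : 1 ≤ K) {t s : ℝ} (z : ℤ) (hz : t = z - s) (hs0 : 0 ≤ s)
    (hs : s ≤ 1 / (8 * K)) : (K : ℝ) / 4 ≤ FK K t := by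
  have hK0 : (0 : ℝ) < K := by exact_mod_cast hK
  have h1 : ∀ k ∈ range K, (1 : ℝ) / 2 ≤ (e (k * t)).re := by
    intro k hk
    have hk' : (k : ℝ) ≤ K := by exact_mod_cast (mem_range.1 hk).le
    have e1 : e (k * t) = e (-(k * s)) := by
      have : (k : ℝ) * t = -(k * s) + ((k * z : ℤ) : ℝ) := by rw [hz]; push_cast; ring
      rw [this, e_add, e_int, mul_one]
    rw [e1]
    have e2 : e (-(k * s)) = Complex.exp (((2 * Real.pi * (-(k * s)) : ℝ) : ℂ) * Complex.I) := by
      unfold e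
      congr 1
      push_cast
      ring
    rw [e2, Complex.exp_ofReal_mul_I_re]
    have h3 := Real.one_sub_sq_div_two_le_cos (x := 2 * Real.pi * (-(k * s)))
    have h4 : (k : ℝ) * s ≤ 1 / 8 := by
      calc (k : ℝ) * s ≤ K * (1 / (8 * K)) := mul_le_mul hk' hs hs0 hK0.le
        _ = 1 / 8 := by field_simp
    have h5 : 0 ≤ (k : ℝ) * s := by positivity
    have hpi := Real.pi_lt_d2
    have hpi0 := Real.pi_pos
    have h6 : (2 * Real.pi * (-(k * s))) ^ 2 ≤ 1 := by
      have h7 : 2 * Real.pi * (k * s) ≤ 1 := by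
        calc 2 * Real.pi * (k * s) ≤ 2 * 3.15 * (1 / 8) := by
              apply mul_le_mul (by linarith) h4 h5 (by norm_num)
          _ ≤ 1 := by norm_num
      have h8 : 0 ≤ 2 * Real.pi * (k * s) := by positivity
      have h9 : (2 * Real.pi * (-(k * s))) ^ 2 = (2 * Real.pi * (k * s)) ^ 2 := by ring
      rw [h9]
      exact pow_le_one₀ h8 h7
    linarith
  have h2 : (K : ℝ) / 2 ≤ ‖∑ k ∈ range K, e (k * t)‖ := by
    refine le_trans ?_ (Complex.re_le_norm _)
    rw [Complex.re_sum]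
    calc (K : ℝ) / 2 = ∑ _k ∈ range K, (1 : ℝ) / 2 := by
          rw [sum_const, card_range, nsmul_eq_mul]; ring
      _ ≤ _ := sum_le_sum h1
  unfold FK
  rw [le_div_iff₀ hK0]
  calc (K : ℝ) / 4 * K = (K / 2) ^ 2 := by ring
    _ ≤ _ := pow_le_pow_left₀ (by positivity) h2 2

theorem FK_sum {ι : Type*} (K : ℕ) (hK : 1 ≤ K) (X : Finset ι) (g : ι → ℝ) (B : ℝ) (hB : 0 ≤ B)
    (h : ∀ h : ℕ, 1 ≤ h → h < K → ‖∑ n ∈ X, e (h * g n)‖ ≤ B) :
    |∑ n ∈ X, FK K (g n) - X.card| ≤ K * B := by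
  have hK0 : (0 : ℝ) < K := by exact_mod_cast hK
  have e1 : ((∑ n ∈ X, ‖∑ k ∈ range K, e (k * g n)‖ ^ 2 : ℝ) : ℂ) =
      ∑ k ∈ range K, ∑ l ∈ range K, ∑ n ∈ X, e (k * g n) * (starRingEnd ℂ) (e (l * g n)) := by
    push_cast
    have : ∀ n ∈ X, ((‖∑ k ∈ range K, e (k * g n)‖ : ℂ)) ^ 2 =
        ∑ k ∈ range K, ∑ l ∈ range K, e (k * g n) * (starRingEnd ℂ) (e (l * g n)) := by
      intro n _
      rw [← Complex.mul_conj', map_sum, sum_mul_sum]
    rw [sum_congr rfl this, sum_comm]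
    apply sum_congr rfl
    intro k _
    rw [sum_comm]
  have e2 : ∀ k ∈ range K, ∀ l ∈ range K,
      ‖(∑ n ∈ X, e (k * g n) * (starRingEnd ℂ) (e (l * g n))) - (if k = l then (X.card : ℂ) else 0)‖
        ≤ B := by
    intro k hk l hl
    rw [mem_range] at hk hl
    rcases lt_trichotomy k l with hkl | hkl | hkl
    · rw [if_neg hkl.ne, sub_zero]
      have h1 : ∀ n ∈ X, e (k * g n) * (starRingEnd ℂ) (e (l * g n)) =
          (starRingEnd ℂ) (e ((l - k : ℕ) * g n)) := by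
        intro n _
        rw [conj_e, conj_e, ← e_add]
        congr 1
        rw [Nat.cast_sub hkl.le]
        ring
      rw [sum_congr rfl h1, ← map_sum, RCLike.norm_conj]
      exact h _ (by omega) (by omega)
    · subst hkl
      rw [if_pos rfl]
      have h1 : ∀ n ∈ X, e (k * g n) * (starRingEnd ℂ) (e (k * g n)) = 1 := by
        intro n _
        rw [Complex.mul_conj', norm_e]
        simp
      rw [sum_congr rfl h1]
      simp [hB]
    · rw [if_neg hkl.ne', sub_zero]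
      have h1 : ∀ n ∈ X, e (k * g n) * (starRingEnd ℂ) (e (l * g n)) =
          e ((k - l : ℕ) * g n) := by
        intro n _
        rw [conj_e, ← e_add]
        congr 1
        rw [Nat.cast_sub hkl.le]
        ring
      rw [sum_congr rfl h1]
      exact h _ (by omega) (by omega)
  have e3 : ‖((∑ n ∈ X, ‖∑ k ∈ range K, e (k * g n)‖ ^ 2 : ℝ) : ℂ) - ((K * X.card : ℝ) : ℂ)‖ ≤
      K * K * B := by
    have h1 : ((K * X.card : ℝ) : ℂ) =
        ∑ k ∈ range K, ∑ l ∈ range K, (if k = l then (X.card : ℂ) else 0) := by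
      have : ∀ k ∈ range K, ∑ l ∈ range K, (if k = l then (X.card : ℂ) else 0) = X.card := by
        intro k hk
        rw [sum_ite_eq, if_pos hk]
      rw [sum_congr rfl this, sum_const, card_range, nsmul_eq_mul]
      push_cast
      ring
    rw [e1, h1, ← sum_sub_distrib]
    refine (norm_sum_le _ _).trans ?_
    have h2 : ∀ k ∈ range K, ‖∑ l ∈ range K, ∑ n ∈ X, e (k * g n) * (starRingEnd ℂ) (e (l * g n)) -
        ∑ l ∈ range K, (if k = l then (X.card : ℂ) else 0)‖ ≤ K * B := by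
      intro k hk
      rw [← sum_sub_distrib]
      refine (norm_sum_le _ _).trans ?_
      refine (sum_le_sum (fun l hl => e2 k hk l hl)).trans ?_
      rw [sum_const, card_range, nsmul_eq_mul]
    refine (sum_le_sum h2).trans ?_
    rw [sum_const, card_range, nsmul_eq_mul]
    apply le_of_eq
    ring
  rw [← Complex.ofReal_sub, Complex.norm_real, Real.norm_eq_abs] at e3
  have e4 : ∑ n ∈ X, FK K (g n) - X.card =
      (∑ n ∈ X, ‖∑ k ∈ range K, e (k * g n)‖ ^ 2 - K * X.card) / K := by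
    unfold FK
    rw [← sum_div]
    field_simp
  rw [e4, abs_div, abs_of_pos hK0, div_le_iff₀ hK0]
  calc _ ≤ (K : ℝ) * K * B := e3
    _ = K * B * K := by ring

end Pool.Agent.H571.FR
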