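import Pool.Agent.H571.FR.Asy

/-! Large smaller generator. -/

set_option autoImplicit false

namespace Pool.Agent.H571.FR

open Finset Filter Topology

theorem weight_large {K a b c p x : ℕ} (hK : 1 ≤ K) (ha : 64 * K ≤ a) (hab : a < b)
    (hc : c * b ≡ 1 [MOD a]) (hx1 : x ^ 2 + a + b ≤ a * b) (hx2 : a * b < (x + 1) ^ 2 + a + b)
    (hp1 : x - x / (32 * K) < p)
    (hrep : ¬ ∃ u v : ℕ, p ^ 2 = a * u + b * v) : (K : ℝ) / 4 ≤ FK K (ph c a p) := by
  have ha1 : 1 ≤ a := by omega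
  have ha0 : (0 : ℝ) < a := by exact_mod_cast ha1
  have hb0 : (0 : ℝ) < b := by
    have : 0 < b := by omega
    exact_mod_cast this
  have hK0 : (0 : ℝ) < K := by exact_mod_cast hK
  set r : ℕ := (c * p ^ 2) % a with hr
  have hra : r < a := Nat.mod_lt _ (by omega)
  have h1 : p ^ 2 ≡ b * r [MOD a] := by
    have h2 : b * r ≡ b * (c * p ^ 2) [MOD a] := Nat.ModEq.mul_left b (Nat.mod_modEq _ _)
    have h3 : b * (c * p ^ 2) = (c * b) * p ^ 2 := by ring
    rw [h3] at h2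
    have h4 : (c * b) * p ^ 2 ≡ 1 * p ^ 2 [MOD a] := Nat.ModEq.mul_right _ hc
    rw [one_mul] at h4
    exact (h2.trans h4).symm
  have h2 : p ^ 2 < b * r := by
    by_contra hle
    rw [not_lt] at hle
    obtain ⟨u, hu⟩ := (Nat.modEq_iff_dvd' hle).mp h1.symm
    exact hrep ⟨u, r, by omega⟩
  have h2r : (p : ℝ) ^ 2 < b * r := by exact_mod_cast h2
  have hrr : (r : ℝ) < a := by exact_mod_cast hra
  -- sizes
  have hxb : x ≤ b := by
    have h3 : x ^ 2 ≤ b ^ 2 := by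
      have : a * b ≤ b * b := Nat.mul_le_mul_right b hab.le
      nlinarith
    exact (Nat.pow_le_pow_iff_left (by norm_num)).1 h3
  have hx2' : a * b ≤ x ^ 2 + 4 * b := by
    have h3 : (x + 1) ^ 2 = x ^ 2 + 2 * x + 1 := by ring
    rw [h3] at hx2
    omega
  have hx2r : (a : ℝ) * b ≤ (x : ℝ) ^ 2 + 4 * b := by exact_mod_cast hx2'
  have hxr : (0 : ℝ) ≤ x := by positivity
  have hpr : (x : ℝ) * (1 - 1 / (32 * K)) ≤ p := by
    have h3 : x ≤ p + x / (32 * K) := by omega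
    have h4 : (x : ℝ) ≤ p + ((x / (32 * K) : ℕ) : ℝ) := by exact_mod_cast h3
    have h5 : ((x / (32 * K) : ℕ) : ℝ) ≤ x / (32 * K) := by
      have := Nat.cast_div_le (α := ℝ) (m := x) (n := 32 * K)
      push_cast at this
      exact this
    have h6 : (x : ℝ) * (1 - 1 / (32 * K)) = x - x / (32 * K) := by ring
    linarith
  have hKs : (1 : ℝ) / (32 * K) ≤ 1 / 32 := by
    apply one_div_le_one_div_of_le (by norm_num)
    have : (1 : ℝ) ≤ K := by exact_mod_cast hK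
    linarith
  have hKs0 : (0 : ℝ) < 1 / (32 * K) := by positivity
  have hp2r : (x : ℝ) ^ 2 * (1 - 2 * (1 / (32 * K))) ≤ (p : ℝ) ^ 2 := by
    have h3 : ((x : ℝ) * (1 - 1 / (32 * K))) ^ 2 ≤ (p : ℝ) ^ 2 :=
      pow_le_pow_left₀ (mul_nonneg hxr (by linarith)) hpr 2
    refine le_trans ?_ h3
    have h4 : ((x : ℝ) * (1 - 1 / (32 * K))) ^ 2 =
        (x : ℝ) ^ 2 * (1 - 2 * (1 / (32 * K))) + (x : ℝ) ^ 2 * (1 / (32 * K)) ^ 2 := by ring
    rw [h4]
    have : 0 ≤ (x : ℝ) ^ 2 * (1 / (32 * K)) ^ 2 := by positivity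
    linarith
  have h4a : 4 / (a : ℝ) ≤ 2 * (1 / (32 * K)) := by
    rw [div_le_iff₀ ha0]
    have : (64 : ℝ) * K ≤ a := by exact_mod_cast ha
    have h5 : 2 * (1 / (32 * (K : ℝ))) * a = a / (16 * K) := by field_simp; ring
    rw [h5, le_div_iff₀ (by positivity)]
    linarith
  have hfin : 1 - 1 / (8 * K) ≤ (r : ℝ) / a := by
    have h5 : (a : ℝ) * b * (1 - 4 / a) ≤ (x : ℝ) ^ 2 := by
      have : (a : ℝ) * b * (1 - 4 / a) = a * b - 4 * b := by field_simp
      rw [this]; linarith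
    have h6 : (a : ℝ) * b * (1 - 4 / a) * (1 - 2 * (1 / (32 * K))) ≤ b * r := by
      calc (a : ℝ) * b * (1 - 4 / a) * (1 - 2 * (1 / (32 * K)))
          ≤ (x : ℝ) ^ 2 * (1 - 2 * (1 / (32 * K))) :=
            mul_le_mul_of_nonneg_right h5 (by linarith)
        _ ≤ (p : ℝ) ^ 2 := hp2r
        _ ≤ b * r := h2r.le
    have h7 : (a : ℝ) * (1 - 4 / a) * (1 - 2 * (1 / (32 * K))) ≤ r := by
      have h8 : (a : ℝ) * b * (1 - 4 / a) * (1 - 2 * (1 / (32 * K))) =
          b * (a * (1 - 4 / a) * (1 - 2 * (1 / (32 * K)))) := by ring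
      rw [h8] at h6
      exact le_of_mul_le_mul_left h6 hb0
    rw [le_div_iff₀ ha0]
    refine le_trans ?_ h7
    have h9 : (1 : ℝ) / (8 * K) = 4 * (1 / (32 * K)) := by field_simp; norm_num
    have h10 : 0 ≤ 4 / (a : ℝ) * (2 * (1 / (32 * K))) := by positivity
    have h11 : 1 - 1 / (8 * (K : ℝ)) ≤ (1 - 4 / a) * (1 - 2 * (1 / (32 * K))) := by
      rw [h9]
      have h12 : (1 - 4 / (a : ℝ)) * (1 - 2 * (1 / (32 * K))) =
          1 - 4 / a - 2 * (1 / (32 * K)) + 4 / a * (2 * (1 / (32 * K))) := by ring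
      rw [h12]
      linarith
    calc (1 - 1 / (8 * (K : ℝ))) * a ≤ ((1 - 4 / a) * (1 - 2 * (1 / (32 * K)))) * a :=
          mul_le_mul_of_nonneg_right h11 ha0.le
      _ = _ := by ring
  refine FK_lower hK (s := 1 - (r : ℝ) / a) (((c * p ^ 2 / a : ℕ) : ℤ) + 1) ?_ ?_ ?_
  · have h5 : (c : ℝ) * (p : ℝ) ^ 2 = r + a * ((c * p ^ 2 / a : ℕ) : ℝ) := by
      exact_mod_cast (Nat.mod_add_div (c * p ^ 2) a).symm
    unfold ph
    rw [h5]
    generalize c * p ^ 2 / a = w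
    push_cast
    field_simp
    ring
  · have : (r : ℝ) / a ≤ 1 := (div_le_one ha0).2 hrr.le
    linarith
  · linarith

theorem a_le {a b x : ℕ} (hab : a < b) (hx2 : a * b < (x + 1) ^ 2 + a + b) : a ≤ x + 1 := by
  by_contra hcon
  have h1 : x + 2 ≤ a := by omega
  have h2 : (x + 1) ^ 2 + a + b ≤ a * b := by
    obtain ⟨u, rfl⟩ := Nat.exists_eq_add_of_le h1
    obtain ⟨v, rfl⟩ := Nat.exists_eq_add_of_lt hab
    ring_nf
    nlinarith [Nat.zero_le (u * v), Nat.zero_le (x * v), Nat.zero_le (x * u), Nat.zero_le (u * u)]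
  omega

theorem large : ∃ A : ℕ, ∀ a b : ℕ, A ≤ a → a < b → Nat.Coprime a b →
    ∃ p : ℕ, p.Prime ∧ p ^ 2 + a + b ≤ a * b ∧ ∃ x y : ℕ, p ^ 2 = a * x + b * y := by
  classical
  obtain ⟨A1, hA1⟩ := tau_small 4096
  obtain ⟨X1, hX1⟩ := eventually_atTop.1 ((prime_count 131072 (by norm_num)).and
    (log_small (1 / 10 ^ 9) (by norm_num)))
  refine ⟨A1 + X1 + 64 * 4096 + 2 * 131072 + 4, fun a b ha hab hcop => ?_⟩
  by_contra hno
  have hapos : 0 < a := by omega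
  -- `x`
  have hgle : a + b ≤ a * b := by
    have h4a : 4 ≤ a := by omega
    have := Nat.mul_le_mul_right b h4a
    omega
  set g : ℕ := a * b - a - b with hg
  have hgab : g + a + b = a * b := by omega
  set x : ℕ := Nat.sqrt g with hx
  have hx1 : x ^ 2 + a + b ≤ a * b := by
    have : x ^ 2 ≤ g := Nat.sqrt_le' g
    omega
  have hx2 : a * b < (x + 1) ^ 2 + a + b := by
    have : g < (x + 1) ^ 2 := Nat.lt_succ_sqrt' g
    omega
  have hax : a ≤ x + 1 := a_le hab hx2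
  obtain ⟨hPC, hlogs⟩ := hX1 x (by omega)
  -- `c`
  have : NeZero a := ⟨hapos.ne'⟩
  obtain ⟨c, hcb⟩ : ∃ c : ℕ, c * b ≡ 1 [MOD a] := by
    refine ⟨((b : ZMod a)⁻¹).val, ?_⟩
    rw [← ZMod.natCast_eq_natCast_iff]
    push_cast
    rw [ZMod.natCast_val, ZMod.cast_id', id, mul_comm]
    exact ZMod.coe_mul_inv_eq_one b hcop.symm
  have hca : Nat.Coprime c a := by
    have h1 : Nat.Coprime (c * b) a := by
      have := hcb.gcd_eq
      rw [Nat.gcd_one_left] at this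
      exact this
    exact Nat.Coprime.coprime_mul_right h1
  set y : ℕ := x - x / 131072 with hy
  have hweight : ∀ p : ℕ, p.Prime → y < p → p ≤ x → ((4096 : ℕ) : ℝ) / 4 ≤ FK 4096 (ph c a p) := by
    intro p hp hp1 hp2
    refine weight_large (K := 4096) (by norm_num) (by omega) hab hcb hx1 hx2 hp1 ?_
    intro hrep
    apply hno
    refine ⟨p, hp, ?_, hrep⟩
    have : p ^ 2 ≤ x ^ 2 := Nat.pow_le_pow_left hp2 2
    omega
  -- common quantities
  set H : ℕ := x / 131072 with hH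
  set P : ℝ := (((Ioc y x).filter Nat.Prime).card : ℝ) with hP
  have hxbig : 2 * 131072 ≤ x := by omega
  have hx0 : (0 : ℝ) < x := by
    have : 0 < x := by omega
    exact_mod_cast this
  have hxbig' : (262144 : ℝ) ≤ x := by
    have : 262144 ≤ x := by omega
    exact_mod_cast this
  have hx1' : (1 : ℝ) ≤ x := by linarith
  have hlog1 : 1 ≤ Real.log x := by
    rw [Real.le_log_iff_exp_le hx0]
    have := Real.exp_one_lt_d9
    linarith
  have hlog0 : 0 < Real.log x := by linarith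
  have hHx : (x : ℝ) / 262144 ≤ H := by
    have h1 := Nat.lt_mul_div_succ x (show 0 < 131072 by norm_num)
    rw [← hH] at h1
    have h2 : (x : ℝ) < 131072 * ((H : ℝ) + 1) := by exact_mod_cast h1
    linarith
  have hHle : (H : ℝ) ≤ x / 131072 := by
    have := Nat.cast_div_le (α := ℝ) (m := x) (n := 131072)
    push_cast at this
    exact this
  have hH0 : (0 : ℝ) ≤ H := by positivity
  have hHx' : H ≤ x := Nat.div_le_self _ _
  have hyx : y ≤ x := Nat.sub_le _ _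
  have hyr : (x : ℝ) - y = H := by
    rw [hy, Nat.cast_sub hHx']
    ring
  set R : ℕ := ⌊(x : ℝ) ^ (1 / 64 : ℝ)⌋₊ with hR
  have hu1 : 1 ≤ (x : ℝ) ^ (1 / 64 : ℝ) := Real.one_le_rpow hx1' (by norm_num)
  have hR1 : 1 ≤ R := Nat.le_floor (by exact_mod_cast hu1)
  have hRu : (R : ℝ) ≤ (x : ℝ) ^ (1 / 64 : ℝ) := Nat.floor_le (by positivity)
  have hR4 : (R : ℝ) ^ 4 ≤ (x : ℝ) ^ (1 / 16 : ℝ) := by
    calc (R : ℝ) ^ 4 ≤ ((x : ℝ) ^ (1 / 64 : ℝ)) ^ 4 := pow_le_pow_left₀ (by positivity) hRu 4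
      _ = (x : ℝ) ^ (1 / 16 : ℝ) := by
          rw [← Real.rpow_natCast, ← Real.rpow_mul hx0.le]; norm_num
  have hlogR : Real.log x / 64 ≤ Real.log ((R : ℝ) + 1) := by
    have h1 : (x : ℝ) ^ (1 / 64 : ℝ) ≤ (R : ℝ) + 1 := (Nat.lt_floor_add_one _).le
    have h2 := Real.log_le_log (by positivity) h1
    rw [Real.log_rpow hx0] at h2
    linarith
  have hlogR0 : 0 < Real.log ((R : ℝ) + 1) := by
    have : 0 < Real.log x / 64 := by positivity
    linarith
  have hRy : R ≤ y := by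
    have h1 : (R : ℝ) ≤ y := by
      have h2 : (x : ℝ) ^ (1 / 64 : ℝ) ≤ (x : ℝ) ^ (1 / 2 : ℝ) :=
        Real.rpow_le_rpow_of_exponent_le hx1' (by norm_num)
      have h3 : (x : ℝ) ^ (1 / 2 : ℝ) ≤ x / 2 := by
        rw [← Real.sqrt_eq_rpow, Real.sqrt_le_left (by positivity)]
        nlinarith
      have h4 : (y : ℝ) = x - H := by linarith
      linarith
    exact_mod_cast h1
  have hPlow : (H : ℝ) / (2 * Real.log x) ≤ P := hPC
  have hpow1 : (x : ℝ) ^ (7 / 8 : ℝ) * (x : ℝ) ^ (1 / 16 : ℝ) = (x : ℝ) ^ (15 / 16 : ℝ) := by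
    rw [← Real.rpow_add hx0]; norm_num
  have h78 : 1 ≤ (x : ℝ) ^ (7 / 8 : ℝ) := Real.one_le_rpow hx1' (by norm_num)
  have h1516 : 0 < (x : ℝ) ^ (15 / 16 : ℝ) := by positivity
  rcases le_or_gt x (a ^ 2) with hcase | hcase
  · -- large modulus
    have ha0 : (0 : ℝ) < a := by exact_mod_cast hapos
    have hsa : 0 < Real.sqrt a := Real.sqrt_pos.2 ha0
    have hcase' : (x : ℝ) ≤ (a : ℝ) ^ 2 := by exact_mod_cast hcase
    have hsa1 : (x : ℝ) ^ (1 / 4 : ℝ) ≤ Real.sqrt a := by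
      have h1 : (x : ℝ) ^ (1 / 4 : ℝ) ≤ ((a : ℝ) ^ 2) ^ (1 / 4 : ℝ) :=
        Real.rpow_le_rpow hx0.le hcase' (by norm_num)
      have h2 : ((a : ℝ) ^ 2) ^ (1 / 4 : ℝ) = Real.sqrt a := by
        rw [← Real.rpow_natCast, ← Real.rpow_mul ha0.le, Real.sqrt_eq_rpow]
        norm_num
      rw [h2] at h1
      exact h1
    have hax' : (a : ℝ) ≤ x + 1 := by exact_mod_cast hax
    have hsa2 : Real.sqrt a ≤ 2 * (x : ℝ) ^ (1 / 2 : ℝ) := by
      rw [← Real.sqrt_eq_rpow, Real.sqrt_le_left (by positivity), mul_pow, Real.sq_sqrt hx0.le]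
      linarith
    have hB2 : (x : ℝ) + 6 * (x : ℝ) ^ 2 * Real.sqrt (2 * ((4096 : ℕ) : ℝ)) / Real.sqrt a +
        7 * x * Real.sqrt a ≤ (24 * (x : ℝ) ^ (7 / 8 : ℝ)) ^ 2 := by
      have e1 : (24 * (x : ℝ) ^ (7 / 8 : ℝ)) ^ 2 = 576 * (x : ℝ) ^ (7 / 4 : ℝ) := by
        rw [mul_pow, ← Real.rpow_natCast ((x : ℝ) ^ (7 / 8 : ℝ)), ← Real.rpow_mul hx0.le]
        norm_num
      rw [e1]
      have e2 : (x : ℝ) ≤ (x : ℝ) ^ (7 / 4 : ℝ) := by
        conv_lhs => rw [← Real.rpow_one (x : ℝ)]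
        exact Real.rpow_le_rpow_of_exponent_le hx1' (by norm_num)
      have e3 : Real.sqrt (2 * ((4096 : ℕ) : ℝ)) ≤ 91 := by
        rw [Real.sqrt_le_left (by norm_num)]
        norm_num
      have e4 : 6 * (x : ℝ) ^ 2 * Real.sqrt (2 * ((4096 : ℕ) : ℝ)) / Real.sqrt a ≤
          546 * (x : ℝ) ^ (7 / 4 : ℝ) := by
        rw [div_le_iff₀ hsa]
        calc 6 * (x : ℝ) ^ 2 * Real.sqrt (2 * ((4096 : ℕ) : ℝ)) ≤ 6 * (x : ℝ) ^ 2 * 91 :=
              mul_le_mul_of_nonneg_left e3 (by positivity)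
          _ = 546 * ((x : ℝ) ^ (7 / 4 : ℝ) * (x : ℝ) ^ (1 / 4 : ℝ)) := by
              rw [← Real.rpow_add hx0]
              norm_num
              ring
          _ ≤ 546 * ((x : ℝ) ^ (7 / 4 : ℝ) * Real.sqrt a) := by gcongr
          _ = _ := by ring
      have e5 : 7 * (x : ℝ) * Real.sqrt a ≤ 14 * (x : ℝ) ^ (7 / 4 : ℝ) := by
        calc 7 * (x : ℝ) * Real.sqrt a ≤ 7 * x * (2 * (x : ℝ) ^ (1 / 2 : ℝ)) :=
              mul_le_mul_of_nonneg_left hsa2 (by positivity)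
          _ = 14 * ((x : ℝ) ^ (1 : ℝ) * (x : ℝ) ^ (1 / 2 : ℝ)) := by rw [Real.rpow_one]; ring
          _ = 14 * (x : ℝ) ^ (3 / 2 : ℝ) := by rw [← Real.rpow_add hx0]; norm_num
          _ ≤ 14 * (x : ℝ) ^ (7 / 4 : ℝ) := by
              have := Real.rpow_le_rpow_of_exponent_le hx1' (show (3 / 2 : ℝ) ≤ 7 / 4 by norm_num)
              linarith
      linarith
    have hS := sv_bound (K := 4096) (R := R) (by norm_num) hapos hca hyx hR1 hRy
      (24 * (x : ℝ) ^ (7 / 8 : ℝ)) (by positivity) hB2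
    have hS2 : 1024 * P ≤ ∑ p ∈ (Ioc y x).filter Nat.Prime, FK 4096 (ph c a p) := by
      rw [hP, mul_comm, ← nsmul_eq_mul, ← sum_const]
      apply sum_le_sum
      intro p hp
      rw [mem_filter, mem_Ioc] at hp
      have := hweight p hp.2 hp.1.1 hp.1.2
      norm_num at this
      exact this
    rw [hyr] at hS
    have h1 : (H : ℝ) / Real.log ((R : ℝ) + 1) ≤ 64 * (H / Real.log x) := by
      have : (H : ℝ) / Real.log ((R : ℝ) + 1) ≤ H / (Real.log x / 64) :=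
        div_le_div_of_nonneg_left hH0 (by positivity) hlogR
      refine this.trans (le_of_eq ?_)
      field_simp
    have h2 : (1 + ((4096 : ℕ) : ℝ) * (24 * (x : ℝ) ^ (7 / 8 : ℝ))) * (R : ℝ) ^ 4 ≤
        98305 * (x : ℝ) ^ (15 / 16 : ℝ) := by
      calc (1 + ((4096 : ℕ) : ℝ) * (24 * (x : ℝ) ^ (7 / 8 : ℝ))) * (R : ℝ) ^ 4
          ≤ (98305 * (x : ℝ) ^ (7 / 8 : ℝ)) * (x : ℝ) ^ (1 / 16 : ℝ) := by
            apply mul_le_mul _ hR4 (by positivity) (by positivity)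
            push_cast
            linarith
        _ = _ := by rw [mul_assoc, hpow1]
    have h3 : 512 * ((H : ℝ) / Real.log x) ≤ 1024 * P := by
      have : (H : ℝ) / (2 * Real.log x) = (1 / 2) * (H / Real.log x) := by field_simp
      linarith
    have h4 : 448 * ((H : ℝ) / Real.log x) ≤ 98305 * (x : ℝ) ^ (15 / 16 : ℝ) := by linarith
    have h5 : 448 * (H : ℝ) ≤ 98305 * (Real.log x * (x : ℝ) ^ (15 / 16 : ℝ)) := by
      have h6 : 448 * ((H : ℝ) / Real.log x) = 448 * H / Real.log x := by ring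
      rw [h6, div_le_iff₀ hlog0] at h4
      linarith
    linarith
  · -- small modulus
    have hcase' : (a : ℝ) ^ 2 ≤ x := by exact_mod_cast hcase.le
    have ha0 : (0 : ℝ) < a := by exact_mod_cast hapos
    have hax2 : (a : ℝ) ≤ (x : ℝ) ^ (1 / 2 : ℝ) := by
      rw [← Real.sqrt_eq_rpow]
      exact Real.le_sqrt_of_sq_le hcase'
    have hay : a ≤ y := by
      have h1 : (a : ℝ) ≤ y := by
        have h3 : (x : ℝ) ^ (1 / 2 : ℝ) ≤ x / 2 := by
          rw [← Real.sqrt_eq_rpow, Real.sqrt_le_left (by positivity)]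
          nlinarith
        have h4 : (y : ℝ) = x - H := by linarith
        linarith
      exact_mod_cast h1
    have hS := regII (K := 4096) (R := R) (by omega) hca (by norm_num) hR1 hay (hA1 a (by omega)) hweight
    rw [← hP] at hS
    set φ : ℝ := (Nat.totient a : ℝ) with hφ
    have hφ0 : 0 < φ := by
      rw [hφ]; exact_mod_cast Nat.totient_pos.2 hapos
    have hφa : φ ≤ a := by
      rw [hφ]; exact_mod_cast Nat.totient_le a
    set N : ℝ := ((x / a - y / a + 1 : ℕ) : ℝ) with hN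
    have hNle : N * a ≤ H + 2 * a := by
      have hdiv : y / a ≤ x / a := Nat.div_le_div_right hyx
      have h1 : N = ((x / a : ℕ) : ℝ) - ((y / a : ℕ) : ℝ) + 1 := by
        rw [hN]
        push_cast [Nat.cast_sub hdiv]
        ring
      have h2 : ((x / a : ℕ) : ℝ) * a ≤ x := by
        exact_mod_cast Nat.div_mul_le_self x a
      have h3 : (y : ℝ) ≤ ((y / a : ℕ) : ℝ) * a + a := by
        have := Nat.lt_mul_div_succ y hapos
        have h : (y : ℝ) < a * ((y / a : ℕ) + 1) := by exact_mod_cast this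
        linarith
      rw [h1]
      have h4 : (((x / a : ℕ) : ℝ) - ((y / a : ℕ) : ℝ) + 1) * a =
          ((x / a : ℕ) : ℝ) * a - ((y / a : ℕ) : ℝ) * a + a := by ring
      rw [h4]
      linarith
    have h1 : 8 * φ / ((4096 : ℕ) : ℝ) * ((a : ℝ) / φ * N / Real.log ((R : ℝ) + 1)) ≤
        (1 / 8) * ((H + 2 * a) / Real.log x) := by
      have e1 : 8 * φ / ((4096 : ℕ) : ℝ) * ((a : ℝ) / φ * N / Real.log ((R : ℝ) + 1)) =
          (1 / 512) * ((N * a) / Real.log ((R : ℝ) + 1)) := by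
        push_cast
        field_simp
        ring
      rw [e1]
      have e2 : (N * a) / Real.log ((R : ℝ) + 1) ≤ (H + 2 * a) / (Real.log x / 64) :=
        div_le_div₀ (by positivity) hNle (by positivity) hlogR
      have e3 : (H + 2 * (a : ℝ)) / (Real.log x / 64) = 64 * ((H + 2 * a) / Real.log x) := by
        field_simp
      rw [e3] at e2
      linarith
    have h2 : 8 * φ / ((4096 : ℕ) : ℝ) * ((R : ℝ) ^ 4 + (R + 1)) ≤ (x : ℝ) ^ (15 / 16 : ℝ) := by
      have e1 : (R : ℝ) ^ 4 + (R + 1) ≤ 3 * (x : ℝ) ^ (1 / 16 : ℝ) := by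
        have h3 : (x : ℝ) ^ (1 / 64 : ℝ) ≤ (x : ℝ) ^ (1 / 16 : ℝ) :=
          Real.rpow_le_rpow_of_exponent_le hx1' (by norm_num)
        have h4 : 1 ≤ (x : ℝ) ^ (1 / 16 : ℝ) := Real.one_le_rpow hx1' (by norm_num)
        linarith
      calc 8 * φ / ((4096 : ℕ) : ℝ) * ((R : ℝ) ^ 4 + (R + 1))
          ≤ (8 * (x : ℝ) ^ (1 / 2 : ℝ) / 4096) * (3 * (x : ℝ) ^ (1 / 16 : ℝ)) := by
            apply mul_le_mul _ e1 (by positivity) (by positivity)
            push_cast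
            apply div_le_div_of_nonneg_right _ (by norm_num)
            linarith
        _ = (24 / 4096) * (x : ℝ) ^ (9 / 16 : ℝ) := by
            have : (x : ℝ) ^ (9 / 16 : ℝ) = (x : ℝ) ^ (1 / 2 : ℝ) * (x : ℝ) ^ (1 / 16 : ℝ) := by
              rw [← Real.rpow_add hx0]; norm_num
            rw [this]
            ring
        _ ≤ 1 * (x : ℝ) ^ (15 / 16 : ℝ) := by
            apply mul_le_mul (by norm_num) _ (by positivity) (by norm_num)
            exact Real.rpow_le_rpow_of_exponent_le hx1' (by norm_num)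
        _ = _ := one_mul _
    have h3 : P ≤ (1 / 8) * ((H + 2 * a) / Real.log x) + (x : ℝ) ^ (15 / 16 : ℝ) := by
      refine hS.trans ?_
      have e1 : 8 * φ / ((4096 : ℕ) : ℝ) * ((a : ℝ) / φ * N / Real.log ((R : ℝ) + 1) + (R : ℝ) ^ 4 +
          (R + 1)) = 8 * φ / ((4096 : ℕ) : ℝ) * ((a : ℝ) / φ * N / Real.log ((R : ℝ) + 1)) +
          8 * φ / ((4096 : ℕ) : ℝ) * ((R : ℝ) ^ 4 + (R + 1)) := by ring
      rw [e1]
      linarith
    have h4 : (1 / 2) * ((H : ℝ) / Real.log x) ≤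
        (1 / 8) * ((H + 2 * a) / Real.log x) + (x : ℝ) ^ (15 / 16 : ℝ) := by
      have : (H : ℝ) / (2 * Real.log x) = (1 / 2) * (H / Real.log x) := by field_simp
      linarith
    have h5 : (1 / 2) * (H : ℝ) ≤ (1 / 8) * (H + 2 * a) + Real.log x * (x : ℝ) ^ (15 / 16 : ℝ) := by
      have h6 := mul_le_mul_of_nonneg_right h4 hlog0.le
      have e1 : (1 / 2) * ((H : ℝ) / Real.log x) * Real.log x = (1 / 2) * H := by field_simp
      have e2 : ((1 / 8) * ((H + 2 * (a : ℝ)) / Real.log x) + (x : ℝ) ^ (15 / 16 : ℝ)) * Real.log x =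
          (1 / 8) * (H + 2 * a) + Real.log x * (x : ℝ) ^ (15 / 16 : ℝ) := by field_simp
      rw [e1, e2] at h6
      exact h6
    have h7 : (a : ℝ) ≤ Real.log x * (x : ℝ) ^ (15 / 16 : ℝ) := by
      calc (a : ℝ) ≤ (x : ℝ) ^ (1 / 2 : ℝ) := hax2
        _ ≤ (x : ℝ) ^ (15 / 16 : ℝ) := Real.rpow_le_rpow_of_exponent_le hx1' (by norm_num)
        _ = 1 * (x : ℝ) ^ (15 / 16 : ℝ) := (one_mul _).symm
        _ ≤ _ := mul_le_mul_of_nonneg_right hlog1 h1516.le
    linarith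

end Pool.Agent.H571.FR
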