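import Pool.Agent.H571.FR.Fejer
import Pool.Graph.R_seed8.H307R2.OP.BT4
import Pool.Graph.R_seed8.Helper601.Selberg2

/-! The sieve for the weights `FK K (c n² / a)`. -/

set_option autoImplicit false

namespace Pool.Agent.H571.FR

open Finset Pool.Agent.Helper170.Weyl Pool.Agent.Helper923.PPS

/-- the sieve problem -/
noncomputable def sv (K c a y x R : ℕ) : BoundingSieve where
  support := Ioc y x
  prodPrimes := PP 1 R
  prodPrimes_squarefree := PP_squarefree 1 R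
  weights := fun n => FK K (ph c a n)
  weights_nonneg := fun n => FK_nonneg _ _
  totalMass := (x : ℝ) - y
  nu := invAF
  nu_mult := invAF_mult
  nu_pos_of_prime := by
    intro p hp _
    rw [invAF_apply]
    have : (0 : ℝ) < p := by exact_mod_cast hp.pos
    positivity
  nu_lt_one_of_prime := by
    intro p hp _
    rw [invAF_apply]
    have : (1 : ℝ) < p := by exact_mod_cast hp.one_lt
    exact inv_lt_one_of_one_lt₀ this

theorem filt_dvd {d : ℕ} (y x : ℕ) (hd : 0 < d) :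
    (Ioc y x).filter (fun n => d ∣ n) =
      (range (x / d - y / d)).image (fun j => d * (y / d + 1 + j)) := by
  ext n
  rw [mem_filter, mem_Ioc, mem_image]
  constructor
  · rintro ⟨⟨h1, h2⟩, m, rfl⟩
    have h3 : y / d < m := (Nat.div_lt_iff_lt_mul hd).2 (by rw [mul_comm]; exact h1)
    have h4 : m ≤ x / d := (Nat.le_div_iff_mul_le hd).2 (by rw [mul_comm]; exact h2)
    refine ⟨m - (y / d + 1), mem_range.2 (by omega), ?_⟩
    congr 1
    omega
  · rintro ⟨j, hj, rfl⟩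
    rw [mem_range] at hj
    have h3 : y / d < y / d + 1 + j := by omega
    have h4 : y / d + 1 + j ≤ x / d := by omega
    refine ⟨⟨?_, ?_⟩, dvd_mul_right _ _⟩
    · rw [mul_comm]; exact (Nat.div_lt_iff_lt_mul hd).1 h3
    · rw [mul_comm]; exact (Nat.le_div_iff_mul_le hd).1 h4

theorem sum_dvd {d : ℕ} (y x : ℕ) (hd : 0 < d) {M : Type*} [AddCommMonoid M] (f : ℕ → M) :
    ∑ n ∈ (Ioc y x).filter (fun n => d ∣ n), f n =
      ∑ j ∈ range (x / d - y / d), f (d * (y / d + 1 + j)) := by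
  rw [filt_dvd y x hd, sum_image]
  intro i _ j _ hij
  have := Nat.eq_of_mul_eq_mul_left hd hij
  omega

theorem sv_rem {K c a y x R d : ℕ} (hK : 1 ≤ K) (ha : 1 ≤ a) (hc : Nat.Coprime c a) (hyx : y ≤ x)
    (hd : 0 < d) (B : ℝ) (hB : 0 ≤ B)
    (hB2 : (x : ℝ) + 6 * (x : ℝ) ^ 2 * Real.sqrt (2 * K) / Real.sqrt a + 7 * x * Real.sqrt a ≤ B ^ 2) :
    |(sv K c a y x R).rem d| ≤ 1 + K * B := by
  have hd' : (0 : ℝ) < d := by exact_mod_cast hd
  have hd1 : (1 : ℝ) ≤ d := by exact_mod_cast hd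
  have ha0 : (0 : ℝ) < a := by exact_mod_cast ha
  set N : ℕ := x / d - y / d with hN
  have hdiv : y / d ≤ x / d := Nat.div_le_div_right hyx
  have hNx : (N : ℝ) ≤ x / d := by
    have h1 : N ≤ x / d := Nat.sub_le _ _
    have h2 : ((x / d : ℕ) : ℝ) ≤ x / d := Nat.cast_div_le
    have h3 : (N : ℝ) ≤ ((x / d : ℕ) : ℝ) := by exact_mod_cast h1
    linarith
  have hx0 : (0 : ℝ) ≤ x := by positivity
  have hNx' : (N : ℝ) ≤ x := hNx.trans (div_le_self hx0 hd1)
  -- the exponential sums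
  have hexp : ∀ h : ℕ, 1 ≤ h → h < K →
      ‖∑ n ∈ range N, e (h * ph c a (d * (y / d + 1 + n)))‖ ≤ B := by
    intro h hh1 hhK
    have hw := weylI a c h d (y / d + 1) N ha hc hh1 hd
    have hhK' : (h : ℝ) ≤ K := by exact_mod_cast hhK.le
    have h1 : Real.sqrt (2 * h) ≤ Real.sqrt (2 * K) := Real.sqrt_le_sqrt (by linarith)
    have hsa : 0 < Real.sqrt a := Real.sqrt_pos.2 ha0
    have h2 : 6 * (N : ℝ) ^ 2 * (Real.sqrt (2 * h) * d) / Real.sqrt a ≤
        6 * (x : ℝ) ^ 2 * Real.sqrt (2 * K) / Real.sqrt a := by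
      apply div_le_div_of_nonneg_right _ hsa.le
      have h3 : (N : ℝ) ^ 2 * d ≤ x ^ 2 := by
        have h4 : (N : ℝ) * d ≤ x := by
          calc (N : ℝ) * d ≤ x / d * d := mul_le_mul_of_nonneg_right hNx hd'.le
            _ = x := by field_simp
        calc (N : ℝ) ^ 2 * d = N * (N * d) := by ring
          _ ≤ x * x := mul_le_mul hNx' h4 (by positivity) hx0
          _ = x ^ 2 := by ring
      calc 6 * (N : ℝ) ^ 2 * (Real.sqrt (2 * h) * d) = 6 * ((N : ℝ) ^ 2 * d) * Real.sqrt (2 * h) := by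
            ring
        _ ≤ 6 * (x ^ 2) * Real.sqrt (2 * K) := by
            apply mul_le_mul (by linarith) h1 (by positivity) (by positivity)
    have h5 : 7 * (N : ℝ) * Real.sqrt a ≤ 7 * x * Real.sqrt a :=
      mul_le_mul_of_nonneg_right (by linarith) hsa.le
    have h6 : ‖∑ n ∈ range N, e (h * ph c a (d * (y / d + 1 + n)))‖ ^ 2 ≤ B ^ 2 := by linarith
    exact le_of_sq_le_sq h6 hB
  have hF := FK_sum K hK (range N) (fun n => ph c a (d * (y / d + 1 + n))) B hB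
    (fun h h1 h2 => hexp h h1 h2)
  rw [card_range] at hF
  -- the remainder
  have e1 : (sv K c a y x R).rem d =
      (∑ n ∈ range N, FK K (ph c a (d * (y / d + 1 + n)))) - (d : ℝ)⁻¹ * ((x : ℝ) - y) := by
    simp only [BoundingSieve.rem, BoundingSieve.multSum, sv]
    rw [← sum_filter, sum_dvd y x hd (fun n => FK K (ph c a n)), invAF_apply]
  rw [e1]
  have e2 : |(N : ℝ) - (d : ℝ)⁻¹ * ((x : ℝ) - y)| ≤ 1 := by
    have h1 : (N : ℝ) = ((x / d : ℕ) : ℝ) - ((y / d : ℕ) : ℝ) := by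
      rw [hN, Nat.cast_sub hdiv]
    have hx1 : ((x / d : ℕ) : ℝ) ≤ x / d := Nat.cast_div_le
    have hy1 : ((y / d : ℕ) : ℝ) ≤ y / d := Nat.cast_div_le
    have hx2 : (x : ℝ) / d < ((x / d : ℕ) : ℝ) + 1 := by
      rw [div_lt_iff₀ hd']
      have := Nat.lt_mul_div_succ x hd
      have h : (x : ℝ) < d * ((x / d : ℕ) + 1) := by exact_mod_cast this
      linarith
    have hy2 : (y : ℝ) / d < ((y / d : ℕ) : ℝ) + 1 := by
      rw [div_lt_iff₀ hd']
      have := Nat.lt_mul_div_succ y hd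
      have h : (y : ℝ) < d * ((y / d : ℕ) + 1) := by exact_mod_cast this
      linarith
    have h2 : (d : ℝ)⁻¹ * ((x : ℝ) - y) = x / d - y / d := by ring
    rw [h1, h2, abs_le]
    constructor <;> linarith
  have e3 : (∑ n ∈ range N, FK K (ph c a (d * (y / d + 1 + n)))) - (d : ℝ)⁻¹ * ((x : ℝ) - y) =
      ((∑ n ∈ range N, FK K (ph c a (d * (y / d + 1 + n)))) - N) +
        ((N : ℝ) - (d : ℝ)⁻¹ * ((x : ℝ) - y)) := by ring
  rw [e3]
  refine (abs_add_le _ _).trans ?_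
  linarith

theorem sv_bound {K c a y x R : ℕ} (hK : 1 ≤ K) (ha : 1 ≤ a) (hc : Nat.Coprime c a) (hyx : y ≤ x)
    (hR : 1 ≤ R) (hRy : R ≤ y) (B : ℝ) (hB : 0 ≤ B)
    (hB2 : (x : ℝ) + 6 * (x : ℝ) ^ 2 * Real.sqrt (2 * K) / Real.sqrt a + 7 * x * Real.sqrt a ≤ B ^ 2) :
    ∑ p ∈ (Ioc y x).filter Nat.Prime, FK K (ph c a p) ≤
      ((x : ℝ) - y) / Real.log ((R : ℝ) + 1) + (1 + K * B) * (R : ℝ) ^ 4 := by
  classical
  have hR' : (1 : ℝ) ≤ R := by exact_mod_cast hR
  have hE : (0 : ℝ) ≤ 1 + K * B := by positivity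
  have hP0 : PP 1 R ≠ 0 := (PP_squarefree 1 R).ne_zero
  have h1 := Pool.Agent.Helper601.siftedSum_le_selberg' (sv K c a y x R) (R : ℝ) hR' (1 + K * B) hE
    (fun d hd _ => sv_rem hK ha hc hyx (Nat.pos_of_ne_zero (ne_zero_of_dvd_ne_zero hP0 hd)) B hB hB2)
  have h2 : ∑ p ∈ (Ioc y x).filter Nat.Prime, FK K (ph c a p) ≤ (sv K c a y x R).siftedSum := by
    unfold BoundingSieve.siftedSum
    rw [sum_filter]
    apply sum_le_sum
    intro n hn
    have hn' := mem_Ioc.1 hn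
    have h3 : (sv K c a y x R).prodPrimes = PP 1 R := rfl
    have h4 : (sv K c a y x R).weights n = FK K (ph c a n) := rfl
    rw [h3, h4]
    split_ifs with hp hcop
    · exact le_rfl
    · exfalso
      apply hcop
      rw [Nat.coprime_comm, hp.coprime_iff_not_dvd, prime_dvd_PP hp]
      omega
    · exact FK_nonneg _ _
    · exact le_rfl
  have h3 : Real.log ((R : ℝ) + 1) ≤ Pool.Agent.Helper601.selS (sv K c a y x R) R := by
    have h4 := Pool.Agent.H307R2.OP.BT4P.selS_ge2 (a := 0) (q := 1) (N := 0) (R := R) le_rfl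
    simp only [Nat.totient_one, Nat.cast_one, div_one, one_mul] at h4
    exact h4
  have hlog : 0 < Real.log ((R : ℝ) + 1) := Real.log_pos (by linarith)
  have hxy : (0 : ℝ) ≤ (x : ℝ) - y := by
    have : (y : ℝ) ≤ x := by exact_mod_cast hyx
    linarith
  have h4 : (sv K c a y x R).totalMass / Pool.Agent.Helper601.selS (sv K c a y x R) R ≤
      ((x : ℝ) - y) / Real.log ((R : ℝ) + 1) := by
    change ((x : ℝ) - y) / _ ≤ _
    exact div_le_div_of_nonneg_left hxy hlog h3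
  have h5 : (∑ d ∈ (Nat.divisors (sv K c a y x R).prodPrimes).filter
      (fun d : ℕ => (d : ℝ) ≤ R), ((sv K c a y x R).nu d)⁻¹) ≤ (R : ℝ) ^ 2 := by
    have h6 : (Nat.divisors (sv K c a y x R).prodPrimes).filter (fun d : ℕ => (d : ℝ) ≤ R) ⊆
        Finset.Icc 1 R := by
      intro d hd
      rw [Finset.mem_filter, Nat.mem_divisors] at hd
      rw [Finset.mem_Icc]
      refine ⟨Nat.pos_of_ne_zero (ne_zero_of_dvd_ne_zero hd.1.2 hd.1.1),
        by exact_mod_cast hd.2⟩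
    calc (∑ d ∈ (Nat.divisors (sv K c a y x R).prodPrimes).filter
          (fun d : ℕ => (d : ℝ) ≤ R), ((sv K c a y x R).nu d)⁻¹)
        = ∑ d ∈ (Nat.divisors (sv K c a y x R).prodPrimes).filter
          (fun d : ℕ => (d : ℝ) ≤ R), (d : ℝ) := by
          apply Finset.sum_congr rfl
          intro d _
          change ((d : ℝ)⁻¹)⁻¹ = d
          rw [inv_inv]
      _ ≤ ∑ d ∈ Finset.Icc 1 R, (d : ℝ) :=
          Finset.sum_le_sum_of_subset_of_nonneg h6 (fun _ _ _ => by positivity)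
      _ ≤ ∑ d ∈ Finset.Icc 1 R, (R : ℝ) := by
          apply Finset.sum_le_sum
          intro d hd
          exact_mod_cast (Finset.mem_Icc.mp hd).2
      _ = (R : ℝ) ^ 2 := by simp; ring
  have h7 : 0 ≤ (∑ d ∈ (Nat.divisors (sv K c a y x R).prodPrimes).filter
      (fun d : ℕ => (d : ℝ) ≤ R), ((sv K c a y x R).nu d)⁻¹) := by
    apply Finset.sum_nonneg
    intro d _
    change 0 ≤ ((d : ℝ)⁻¹)⁻¹
    positivity
  have h8 : (∑ d ∈ (Nat.divisors (sv K c a y x R).prodPrimes).filter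
      (fun d : ℕ => (d : ℝ) ≤ R), ((sv K c a y x R).nu d)⁻¹) ^ 2 ≤ (R : ℝ) ^ 4 := by
    calc _ ≤ ((R : ℝ) ^ 2) ^ 2 := by gcongr
      _ = (R : ℝ) ^ 4 := by ring
  have h9 := mul_le_mul_of_nonneg_left h8 hE
  linarith

end Pool.Agent.H571.FR
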