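import Pool.Agent.H571.FR.RegI
import Pool.Graph.R_seed8.Helper112.Arith

/-! Small moduli. -/

set_option autoImplicit false

namespace Pool.Agent.H571.FR

open Finset Pool.Agent.Helper170.Weyl
open scoped ArithmeticFunction.Moebius

theorem sum_moebius (n : ℕ) : (∑ e ∈ Nat.divisors n, (μ e : ℂ)) = if n = 1 then 1 else 0 := by
  have h2 : (∑ e ∈ Nat.divisors n, (μ e : ℤ)) = if n = 1 then 1 else 0 := by
    rw [← ArithmeticFunction.coe_mul_zeta_apply, ArithmeticFunction.moebius_mul_coe_zeta,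
      ArithmeticFunction.one_apply]
  have := congrArg (fun z : ℤ => (z : ℂ)) h2
  simp only [Int.cast_sum] at this
  rw [this]; split_ifs <;> simp

theorem range_dvd {a e : ℕ} (ha : 1 ≤ a) (he : e ∣ a) :
    (range a).filter (fun r => e ∣ r) = (range (a / e)).image (fun m => e * m) := by
  have he0 : 0 < e := Nat.pos_of_dvd_of_pos he ha
  ext r
  rw [mem_filter, mem_range, mem_image]
  constructor
  · rintro ⟨h1, m, rfl⟩
    refine ⟨m, mem_range.2 ?_, rfl⟩
    rw [Nat.lt_div_iff_mul_lt' he]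
    exact h1
  · rintro ⟨m, hm, rfl⟩
    rw [mem_range, Nat.lt_div_iff_mul_lt' he] at hm
    exact ⟨hm, dvd_mul_right _ _⟩

theorem sum_coprime {a : ℕ} (ha : 1 ≤ a) (f : ℕ → ℂ) :
    ∑ r ∈ (range a).filter (fun r => Nat.Coprime a r), f r =
      ∑ e ∈ Nat.divisors a, (μ e : ℂ) * ∑ m ∈ range (a / e), f (e * m) := by
  have h1 : ∀ e ∈ Nat.divisors a, ∑ m ∈ range (a / e), f (e * m) =
      ∑ r ∈ range a, if e ∣ r then f r else 0 := by
    intro e he
    have he' := Nat.dvd_of_mem_divisors he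
    have he0 : 0 < e := Nat.pos_of_dvd_of_pos he' ha
    rw [← sum_filter, range_dvd ha he', sum_image]
    intro i _ j _ hij
    exact Nat.eq_of_mul_eq_mul_left he0 hij
  have h1' : ∑ e ∈ Nat.divisors a, (μ e : ℂ) * ∑ m ∈ range (a / e), f (e * m) =
      ∑ e ∈ Nat.divisors a, ∑ r ∈ range a, (μ e : ℂ) * (if e ∣ r then f r else 0) := by
    apply sum_congr rfl
    intro e he
    rw [h1 e he, mul_sum]
  rw [h1', sum_comm, sum_filter]
  apply sum_congr rfl
  intro r _
  have h2 : ∑ e ∈ Nat.divisors a, (μ e : ℂ) * (if e ∣ r then f r else 0) =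
      (∑ e ∈ (Nat.divisors a).filter (fun e => e ∣ r), (μ e : ℂ)) * f r := by
    rw [sum_mul, sum_filter]
    apply sum_congr rfl
    intro e _
    split_ifs <;> simp
  have h3 : (Nat.divisors a).filter (fun e => e ∣ r) = Nat.divisors (Nat.gcd a r) := by
    ext e
    rw [mem_filter, Nat.mem_divisors, Nat.mem_divisors, Nat.dvd_gcd_iff]
    have : Nat.gcd a r ≠ 0 := (Nat.gcd_pos_of_pos_left _ ha).ne'
    have ha0 : a ≠ 0 := by omega
    tauto
  rw [h2, h3, sum_moebius]
  by_cases hc : Nat.Coprime a r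
  · rw [if_pos hc, if_pos (Nat.coprime_iff_gcd_eq_one.1 hc), one_mul]
  · rw [if_neg hc, if_neg (fun h => hc (Nat.coprime_iff_gcd_eq_one.2 h)), zero_mul]

theorem gauss_bound {a c h K : ℕ} (ha : 1 ≤ a) (hc : Nat.Coprime c a) (hh : 1 ≤ h) (hK : h ≤ K) :
    ‖∑ r ∈ (range a).filter (fun r => Nat.Coprime a r), e (h * ph c a r)‖ ≤
      (Nat.divisors a).card * Real.sqrt (20 * K * (a * Real.sqrt a)) := by
  have ha0 : (0 : ℝ) < a := by exact_mod_cast ha
  have ha1 : (1 : ℝ) ≤ a := by exact_mod_cast ha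
  have hK1 : (1 : ℝ) ≤ K := by exact_mod_cast hh.trans hK
  have hsa : 0 < Real.sqrt a := Real.sqrt_pos.2 ha0
  have hsa1 : 1 ≤ Real.sqrt a := by rw [Real.one_le_sqrt]; exact ha1
  have hss : Real.sqrt a * Real.sqrt a = a := Real.mul_self_sqrt ha0.le
  rw [sum_coprime ha]
  refine (norm_sum_le _ _).trans ?_
  have h1 : ∀ e' ∈ Nat.divisors a, ‖(μ e' : ℂ) * ∑ m ∈ range (a / e'), e (h * ph c a (e' * m))‖ ≤
      Real.sqrt (20 * K * (a * Real.sqrt a)) := by
    intro d hd
    have hd' := Nat.dvd_of_mem_divisors hd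
    have hd0 : 0 < d := Nat.pos_of_dvd_of_pos hd' ha
    have hdr : (0 : ℝ) < d := by exact_mod_cast hd0
    have hd1 : (1 : ℝ) ≤ d := by exact_mod_cast hd0
    rw [norm_mul]
    have hmu : ‖(μ d : ℂ)‖ ≤ 1 := by
      rw [Complex.norm_intCast]
      exact_mod_cast ArithmeticFunction.abs_moebius_le_one
    have hw := weylI a c h d 0 (a / d) ha hc hh hd0
    simp only [zero_add] at hw
    have hN : ((a / d : ℕ) : ℝ) ≤ a / d := Nat.cast_div_le
    have hN' : ((a / d : ℕ) : ℝ) ≤ a := hN.trans (div_le_self ha0.le hd1)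
    have hN0 : (0 : ℝ) ≤ ((a / d : ℕ) : ℝ) := by positivity
    have hNd : ((a / d : ℕ) : ℝ) * d ≤ a := by
      calc ((a / d : ℕ) : ℝ) * d ≤ a / d * d := mul_le_mul_of_nonneg_right hN hdr.le
        _ = a := by field_simp
    have hs : Real.sqrt (2 * h) ≤ 2 * K := by
      rw [Real.sqrt_le_left (by positivity)]
      have : (h : ℝ) ≤ K := by exact_mod_cast hK
      nlinarith
    have h2 : 6 * ((a / d : ℕ) : ℝ) ^ 2 * (Real.sqrt (2 * h) * d) / Real.sqrt a ≤
        12 * K * (a * Real.sqrt a) := by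
      rw [div_le_iff₀ hsa]
      have h3 : ((a / d : ℕ) : ℝ) ^ 2 * d ≤ a ^ 2 := by
        calc ((a / d : ℕ) : ℝ) ^ 2 * d = ((a / d : ℕ) : ℝ) * (((a / d : ℕ) : ℝ) * d) := by ring
          _ ≤ a * a := mul_le_mul hN' hNd (by positivity) ha0.le
          _ = a ^ 2 := by ring
      calc 6 * ((a / d : ℕ) : ℝ) ^ 2 * (Real.sqrt (2 * h) * d) =
            6 * (((a / d : ℕ) : ℝ) ^ 2 * d) * Real.sqrt (2 * h) := by ring
        _ ≤ 6 * ((a : ℝ) ^ 2) * (2 * (K : ℝ)) := by
            apply mul_le_mul (by linarith) hs (by positivity) (by positivity)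
        _ = 12 * K * (a * (Real.sqrt a * Real.sqrt a)) := by rw [hss]; ring
        _ = _ := by ring
    have h4 : ((a / d : ℕ) : ℝ) ≤ a * Real.sqrt a := by nlinarith
    have h5 : 7 * ((a / d : ℕ) : ℝ) * Real.sqrt a ≤ 7 * (a * Real.sqrt a) := by
      calc 7 * ((a / d : ℕ) : ℝ) * Real.sqrt a ≤ 7 * a * Real.sqrt a :=
            mul_le_mul_of_nonneg_right (by linarith) hsa.le
        _ = _ := by ring
    have h6 : ‖∑ m ∈ range (a / d), e (h * ph c a (d * m))‖ ^ 2 ≤ 20 * K * (a * Real.sqrt a) := by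
      have h7 : (0 : ℝ) < a * Real.sqrt a := by positivity
      nlinarith
    have h8 : ‖∑ m ∈ range (a / d), e (h * ph c a (d * m))‖ ≤
        Real.sqrt (20 * K * (a * Real.sqrt a)) := Real.le_sqrt_of_sq_le h6
    calc ‖(μ d : ℂ)‖ * ‖∑ m ∈ range (a / d), e (h * ph c a (d * m))‖
        ≤ 1 * Real.sqrt (20 * K * (a * Real.sqrt a)) :=
          mul_le_mul hmu h8 (norm_nonneg _) (by norm_num)
      _ = _ := one_mul _
  refine (sum_le_sum h1).trans ?_
  rw [sum_const, nsmul_eq_mul]

open Classical in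
/-- the residue classes with a large weight -/
noncomputable def SS (K c a : ℕ) : Finset ℕ :=
  ((range a).filter (fun r => Nat.Coprime a r)).filter
    (fun r => (K : ℝ) / 4 ≤ FK K (ph c a r))

theorem SS_card {a c K : ℕ} (ha : 1 ≤ a) (hc : Nat.Coprime c a) (hK : 1 ≤ K)
    (h : K * ((Nat.divisors a).card * Real.sqrt (20 * K * (a * Real.sqrt a))) ≤ Nat.totient a) :
    ((SS K c a).card : ℝ) ≤ 8 * Nat.totient a / K := by
  classical
  have hK0 : (0 : ℝ) < K := by exact_mod_cast hK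
  have hcard : ((range a).filter (fun r => Nat.Coprime a r)).card = Nat.totient a := rfl
  have hF := FK_sum K hK ((range a).filter (fun r => Nat.Coprime a r)) (fun r => ph c a r)
    ((Nat.divisors a).card * Real.sqrt (20 * K * (a * Real.sqrt a))) (by positivity)
    (fun h h1 h2 => gauss_bound ha hc h1 h2.le)
  rw [hcard] at hF
  have h1 := (abs_le.1 hF).2
  have h2 : (K : ℝ) / 4 * (SS K c a).card ≤
      ∑ r ∈ (range a).filter (fun r => Nat.Coprime a r), FK K (ph c a r) := by
    have h3 : (K : ℝ) / 4 * (SS K c a).card ≤ ∑ r ∈ SS K c a, FK K (ph c a r) := by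
      rw [mul_comm, ← nsmul_eq_mul, ← sum_const]
      apply sum_le_sum
      intro r hr
      unfold SS at hr
      exact (mem_filter.1 hr).2
    refine h3.trans ?_
    unfold SS
    exact sum_le_sum_of_subset_of_nonneg (filter_subset _ _) (fun _ _ _ => FK_nonneg _ _)
  rw [le_div_iff₀ hK0]
  linarith

theorem FK_mod {K c a n : ℕ} (ha : 1 ≤ a) : FK K (ph c a n) = FK K (ph c a (n % a)) := by
  have ha0 : (a : ℝ) ≠ 0 := by
    have : (0 : ℝ) < a := by exact_mod_cast ha
    exact this.ne'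
  unfold FK
  congr 3
  apply sum_congr rfl
  intro k _
  have h1 : (k : ℝ) * ph c a n = k * ph c a (n % a) +
      (((k * c * (n / a) * (n + n % a) : ℕ) : ℤ) : ℝ) := by
    have h2 : n = n % a + a * (n / a) := (Nat.mod_add_div n a).symm
    generalize n / a = w at *
    generalize n % a = v at *
    have h2' : (n : ℝ) = v + a * w := by exact_mod_cast h2
    unfold ph
    push_cast
    field_simp
    rw [h2']
    ring
  rw [h1, e_add, e_int, mul_one]

theorem regII {a c x y K R : ℕ} (ha : 2 ≤ a) (hc : Nat.Coprime c a) (hK : 1 ≤ K) (hR : 1 ≤ R)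
    (hay : a ≤ y)
    (hτ : K * ((Nat.divisors a).card * Real.sqrt (20 * K * (a * Real.sqrt a))) ≤ Nat.totient a)
    (hp : ∀ p : ℕ, p.Prime → y < p → p ≤ x → (K : ℝ) / 4 ≤ FK K (ph c a p)) :
    (((Ioc y x).filter Nat.Prime).card : ℝ) ≤
      8 * Nat.totient a / K * (((a : ℝ) / Nat.totient a) * ((x / a - y / a + 1 : ℕ) : ℝ) /
        Real.log ((R : ℝ) + 1) + (R : ℝ) ^ 4 + (R + 1)) := by
  classical
  have ha1 : 1 ≤ a := by omega
  set N : ℕ := x / a - y / a + 1 with hN
  set BB : ℝ := ((a : ℝ) / Nat.totient a) * (N : ℝ) / Real.log ((R : ℝ) + 1) + (R : ℝ) ^ 4 + (R + 1)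
    with hBB
  have hR' : (1 : ℝ) ≤ R := by exact_mod_cast hR
  have hlog : 0 < Real.log ((R : ℝ) + 1) := Real.log_pos (by linarith)
  have hBB0 : 0 ≤ BB := by positivity
  have h1 : ∀ p ∈ (Ioc y x).filter Nat.Prime, p % a ∈ SS K c a := by
    intro p hpp
    rw [mem_filter, mem_Ioc] at hpp
    unfold SS
    rw [mem_filter, mem_filter, mem_range]
    refine ⟨⟨Nat.mod_lt _ (by omega), ?_⟩, ?_⟩
    · rw [Nat.coprime_iff_gcd_eq_one, Nat.gcd_comm, ← Nat.gcd_rec, Nat.gcd_comm,
        ← Nat.coprime_iff_gcd_eq_one, hpp.2.coprime_iff_not_dvd]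
      intro hd
      have := Nat.le_of_dvd (by omega) hd
      omega
    · rw [← FK_mod ha1]
      exact hp p hpp.2 hpp.1.1 hpp.1.2
  have h2 : ((Ioc y x).filter Nat.Prime).card =
      ∑ r ∈ SS K c a, (((Ioc y x).filter Nat.Prime).filter (fun p => p % a = r)).card :=
    card_eq_sum_card_fiberwise (fun p hp' => h1 p hp')
  have h3 : ∀ r ∈ SS K c a, ((((Ioc y x).filter Nat.Prime).filter (fun p => p % a = r)).card : ℝ) ≤
      BB := by
    intro r hr
    have h4 := Pool.Agent.H307R2.OP.BT4P.bt_core (a := r + a * (y / a)) (q := a) (N := N) (R := R)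
      ha1 hR
    refine le_trans ?_ h4
    have h5 : (((Ioc y x).filter Nat.Prime).filter (fun p => p % a = r)).card ≤
        ((range N).filter (fun k => (r + a * (y / a) + k * a).Prime)).card := by
      apply card_le_card_of_injOn (fun p => p / a - y / a)
      · intro p hp'
        simp only [coe_filter, mem_filter, mem_Ioc, Set.mem_ofPred_eq, mem_range] at hp' ⊢
        obtain ⟨⟨⟨h6, h7⟩, h8⟩, h9⟩ := hp'
        have h10 : y / a ≤ p / a := Nat.div_le_div_right h6.le
        have h11 : p / a ≤ x / a := Nat.div_le_div_right h7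
        refine ⟨by omega, ?_⟩
        have h12 : r + a * (y / a) + (p / a - y / a) * a = p := by
          have h13 : a * (y / a) + (p / a - y / a) * a = a * (p / a) := by
            rw [mul_comm (p / a - y / a) a, ← mul_add]
            congr 1
            omega
          have h14 := Nat.mod_add_div p a
          rw [h9] at h14
          omega
        rw [h12]
        exact h8
      · intro p hp' q hq' hpq
        simp only [coe_filter, mem_filter, mem_Ioc, Set.mem_ofPred_eq] at hp' hq'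
        simp only at hpq
        obtain ⟨⟨⟨h6, h7⟩, h8⟩, h9⟩ := hp'
        obtain ⟨⟨⟨k6, k7⟩, k8⟩, k9⟩ := hq'
        have h10 : y / a ≤ p / a := Nat.div_le_div_right h6.le
        have k10 : y / a ≤ q / a := Nat.div_le_div_right k6.le
        have h11 : p / a = q / a := by omega
        rw [← Nat.mod_add_div p a, ← Nat.mod_add_div q a, h9, k9, h11]
    exact_mod_cast h5
  rw [h2]
  push_cast
  refine (sum_le_sum h3).trans ?_
  rw [sum_const, nsmul_eq_mul]
  exact mul_le_mul_of_nonneg_right (SS_card ha1 hc hK hτ) hBB0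

end Pool.Agent.H571.FR
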