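import Mathlib
import Pool.Graph.R_seed8.Helper170.Weyl

/-! Quadratic exponential sums with rational leading coefficient, with a power saving. -/

set_option autoImplicit false

namespace Pool.Agent.H571.FR

open Finset Pool.Agent.Helper170.Weyl

theorem weylQ (N q : ℕ) (A z : ℤ) (α β : ℝ) (hq : 1 ≤ q) (hA : IsCoprime A (q : ℤ))
    (hα : 2 * α = (A : ℝ) / q + z) :
    ‖∑ n ∈ range N, e (α * n ^ 2 + β * n)‖ ^ 2 ≤
      N + 6 * (N : ℝ) ^ 2 / Real.sqrt q + 7 * N * Real.sqrt q := by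
  have hq0 : (0 : ℝ) < q := by exact_mod_cast hq
  have hN0 : (0 : ℝ) ≤ N := by positivity
  have hv := vdc (fun n => e (α * n ^ 2 + β * n)) (fun n => norm_e _) N
  -- differenced sums
  have hG : ∀ l M : ℕ, ‖∑ n ∈ range M, e (α * ((n + l : ℕ) : ℝ) ^ 2 + β * ((n + l : ℕ) : ℝ)) *
      (starRingEnd ℂ) (e (α * n ^ 2 + β * n))‖ =
      ‖∑ n ∈ range M, e ((rho A q l : ℝ) / q) ^ n‖ := by
    intro l M
    have h1 : ∀ n : ℕ, e (α * ((n + l : ℕ) : ℝ) ^ 2 + β * ((n + l : ℕ) : ℝ)) *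
        (starRingEnd ℂ) (e (α * n ^ 2 + β * n)) =
        e (α * l ^ 2 + β * l) * e ((rho A q l : ℝ) / q) ^ n := by
      intro n
      rw [conj_e, ← e_add, ← e_nat_mul]
      have h2 := rho_spec (A := A) hq l
      have h3 := Int.emod_add_mul_ediv (A * l) q
      have h4 : (A : ℝ) * l = (rho A q l : ℝ) + q * (((A * l) / (q : ℤ) : ℤ) : ℝ) := by
        have : ((A * l : ℤ) : ℝ) = (((rho A q l : ℕ) : ℤ) : ℝ) +
            ((q : ℤ) : ℝ) * (((A * l) / (q : ℤ) : ℤ) : ℝ) := by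
          rw [h2, ← Int.cast_mul, ← Int.cast_add, h3]
        push_cast at this
        exact this
      have h5 : α * ((n + l : ℕ) : ℝ) ^ 2 + β * ((n + l : ℕ) : ℝ) + -(α * n ^ 2 + β * n) =
          (α * l ^ 2 + β * l) + (n * ((rho A q l : ℝ) / q) +
            ((n * ((A * l) / (q : ℤ)) + n * z * l : ℤ) : ℝ)) := by
        have h6 : (rho A q l : ℝ) / q = (2 * α - z) * l - (((A * l) / (q : ℤ) : ℤ) : ℝ) := by
          rw [hα]
          have : (A : ℝ) / q * l = (rho A q l : ℝ) / q + (((A * l) / (q : ℤ) : ℤ) : ℝ) := by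
            rw [div_mul_eq_mul_div, h4]
            field_simp
          have h7 : ((A : ℝ) / q + z - z) * l = (A : ℝ) / q * l := by ring
          rw [h7, this]
          ring
        rw [h6]
        push_cast
        ring
      rw [h5, e_add, e_add (↑n * (↑(rho A q l) / ↑q)), e_int, mul_one]
    simp_rw [h1]
    rw [← mul_sum, norm_mul, norm_e, one_mul]
  -- threshold
  set T : ℕ := Nat.sqrt q with hT
  have hs1 : (1 : ℝ) ≤ Real.sqrt q := by
    rw [Real.one_le_sqrt]; exact_mod_cast hq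
  have hs0 : (0 : ℝ) < Real.sqrt q := by linarith
  have hss : Real.sqrt q * Real.sqrt q = q := Real.mul_self_sqrt hq0.le
  have hT1 : (T : ℝ) ≤ Real.sqrt q := Real.nat_sqrt_le_real_sqrt
  have hT2 : Real.sqrt q ≤ T + 1 := Real.real_sqrt_le_nat_sqrt_succ
  set R : Finset ℕ := range (T + 1) ∪ Ico (q - T) q with hR
  have hRcard : R.card ≤ 2 * T + 1 := by
    refine (card_union_le _ _).trans ?_
    rw [card_range, Nat.card_Ico]
    omega
  have hGl : ∀ l M : ℕ, M ≤ N → ‖∑ n ∈ range M, e ((rho A q l : ℝ) / q) ^ n‖ ≤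
      (if rho A q l ∈ R then (N : ℝ) else 0) + q / (2 * (T + 1)) := by
    intro l M hM
    split_ifs with hmem
    · have h1 : ‖∑ n ∈ range M, e ((rho A q l : ℝ) / q) ^ n‖ ≤ M := by
        refine (norm_sum_le _ _).trans ?_
        simp [norm_pow, norm_e]
      have h2 : (M : ℝ) ≤ N := by exact_mod_cast hM
      have h3 : (0 : ℝ) ≤ q / (2 * (T + 1)) := by positivity
      linarith
    · rw [zero_add]
      rw [hR, mem_union, mem_range, mem_Ico] at hmem
      push Not at hmem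
      have hlt := rho_lt (A := A) hq l
      have h1 : T + 1 ≤ rho A q l := hmem.1
      have h2 : T + 1 ≤ q - rho A q l := by
        by_contra hcon
        have : q - T ≤ rho A q l := by omega
        have := hmem.2 this
        omega
      have h3 : ((T : ℝ) + 1) / q ≤ (rho A q l : ℝ) / q := by
        apply div_le_div_of_nonneg_right _ hq0.le
        exact_mod_cast h1
      have h4 : ((T : ℝ) + 1) / q ≤ 1 - (rho A q l : ℝ) / q := by
        rw [le_sub_iff_add_le, ← add_div, div_le_one hq0]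
        have : T + 1 + rho A q l ≤ q := by omega
        exact_mod_cast this
      refine (geom_bound (by positivity) h3 h4 M).trans ?_
      apply le_of_eq
      field_simp
  have hsum : ∑ l ∈ Ico 1 N, ‖∑ n ∈ range (N - l),
      e (α * ((n + l : ℕ) : ℝ) ^ 2 + β * ((n + l : ℕ) : ℝ)) *
      (starRingEnd ℂ) (e (α * n ^ 2 + β * n))‖ ≤
      (2 * T + 1) * (((N / q : ℕ) : ℝ) + 1) * N + N * (q / (2 * (T + 1))) := by
    have h1 : ∀ l ∈ Ico 1 N, ‖∑ n ∈ range (N - l),
        e (α * ((n + l : ℕ) : ℝ) ^ 2 + β * ((n + l : ℕ) : ℝ)) *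
        (starRingEnd ℂ) (e (α * n ^ 2 + β * n))‖ ≤
        (if rho A q l ∈ R then (N : ℝ) else 0) + q / (2 * (T + 1)) := by
      intro l _
      rw [hG]
      exact hGl l _ (Nat.sub_le _ _)
    refine (sum_le_sum h1).trans ?_
    have h2 : ∑ l ∈ Ico 1 N, ((if rho A q l ∈ R then (N : ℝ) else 0) + q / (2 * (T + 1))) ≤
        ∑ l ∈ range N, ((if rho A q l ∈ R then (N : ℝ) else 0) + q / (2 * (T + 1))) := by
      apply sum_le_sum_of_subset_of_nonneg
      · intro x hx
        rw [mem_Ico] at hx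
        rw [mem_range]
        exact hx.2
      · intro x _ _
        have h3 : (0 : ℝ) ≤ q / (2 * (T + 1)) := by positivity
        split_ifs <;> linarith
    refine h2.trans ?_
    rw [sum_add_distrib, sum_const, card_range, nsmul_eq_mul]
    apply add_le_add _ (le_refl _)
    rw [← sum_filter, sum_const, nsmul_eq_mul]
    apply mul_le_mul_of_nonneg_right _ hN0
    have h3 := count_set hq hA N R
    have h4 : ((range N).filter (fun l => rho A q l ∈ R)).card ≤ (2 * T + 1) * (N / q + 1) :=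
      h3.trans (Nat.mul_le_mul_right _ hRcard)
    exact_mod_cast h4
  have hb1 : (2 * (T : ℝ) + 1) ≤ 3 * Real.sqrt q := by linarith
  have hb2 : (((N / q : ℕ) : ℝ) + 1) ≤ N / q + 1 := by
    have : ((N / q : ℕ) : ℝ) ≤ N / q := Nat.cast_div_le
    linarith
  have hb3 : (q : ℝ) / (2 * (T + 1)) ≤ Real.sqrt q / 2 := by
    rw [div_le_div_iff₀ (by positivity) (by norm_num)]
    nlinarith
  have hb4 : (2 * (T : ℝ) + 1) * (((N / q : ℕ) : ℝ) + 1) * N ≤
      3 * Real.sqrt q * (N / q + 1) * N := by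
    apply mul_le_mul_of_nonneg_right _ hN0
    exact mul_le_mul hb1 hb2 (by positivity) (by positivity)
  have hb5 : 3 * Real.sqrt q * (N / q + 1) * N = 3 * (N : ℝ) ^ 2 / Real.sqrt q +
      3 * N * Real.sqrt q := by
    have : (q : ℝ) = Real.sqrt q * Real.sqrt q := hss.symm
    field_simp
    rw [Real.sq_sqrt hq0.le]
    ring
  have hb6 : (N : ℝ) * (q / (2 * (T + 1))) ≤ N * (Real.sqrt q / 2) :=
    mul_le_mul_of_nonneg_left hb3 hN0
  have := hv.trans (add_le_add_right (mul_le_mul_of_nonneg_left (hsum.trans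
    (add_le_add (hb4.trans hb5.le) hb6)) (by norm_num : (0 : ℝ) ≤ 2)) _)
  refine this.trans (le_of_eq ?_)
  ring

/-- the phases `c n² / a` -/
noncomputable def ph (c a n : ℕ) : ℝ := (c : ℝ) * (n : ℝ) ^ 2 / a

theorem weylI (a c h d M N : ℕ) (ha : 1 ≤ a) (hc : Nat.Coprime c a) (hh : 1 ≤ h) (hd : 1 ≤ d) :
    ‖∑ n ∈ range N, e (h * ph c a (d * (M + n)))‖ ^ 2 ≤
      N + 6 * (N : ℝ) ^ 2 * (Real.sqrt (2 * h) * d) / Real.sqrt a + 7 * N * Real.sqrt a := by
  have ha0 : (0 : ℝ) < a := by exact_mod_cast ha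
  have hh0 : (0 : ℝ) < h := by exact_mod_cast hh
  have hd0 : (0 : ℝ) < d := by exact_mod_cast hd
  set G : ℕ := Nat.gcd (2 * h * c * d ^ 2) a with hG
  have hGpos : 0 < G := Nat.gcd_pos_of_pos_right _ ha
  have hG0 : (0 : ℝ) < G := by exact_mod_cast hGpos
  set q : ℕ := a / G with hq
  set A : ℕ := (2 * h * c * d ^ 2) / G with hA
  have hqG : q * G = a := Nat.div_mul_cancel (Nat.gcd_dvd_right _ _)
  have hAG : A * G = 2 * h * c * d ^ 2 := Nat.div_mul_cancel (Nat.gcd_dvd_left _ _)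
  have hq1 : 1 ≤ q := Nat.div_pos (Nat.le_of_dvd ha (Nat.gcd_dvd_right _ _)) hGpos
  have hq0 : (0 : ℝ) < q := by exact_mod_cast hq1
  have hcop : Nat.Coprime A q := Nat.coprime_div_gcd_div_gcd hGpos
  have hcop' : IsCoprime (A : ℤ) (q : ℤ) := Nat.isCoprime_iff_coprime.mpr hcop
  have hqGr : (q : ℝ) * G = a := by exact_mod_cast hqG
  have hAGr : (A : ℝ) * G = 2 * h * c * d ^ 2 := by exact_mod_cast hAG
  have hα : 2 * ((h : ℝ) * c * d ^ 2 / a) = ((A : ℤ) : ℝ) / q + ((0 : ℤ) : ℝ) := by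
    have e1 : 2 * ((h : ℝ) * c * d ^ 2 / a) = (2 * h * c * d ^ 2) / a := by ring
    rw [e1, ← hAGr, ← hqGr]
    push_cast
    field_simp
    ring
  have hw := weylQ N q A 0 ((h : ℝ) * c * d ^ 2 / a) (2 * ((h : ℝ) * c * d ^ 2 / a) * M)
    hq1 hcop' hα
  have e1 : ∀ n : ℕ, e (h * ph c a (d * (M + n))) =
      e ((h : ℝ) * c * d ^ 2 / a * M ^ 2) *
        e ((h : ℝ) * c * d ^ 2 / a * n ^ 2 + 2 * ((h : ℝ) * c * d ^ 2 / a) * M * n) := by
    intro n
    rw [← e_add]
    congr 1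
    unfold ph
    push_cast
    ring
  simp_rw [e1]
  rw [← mul_sum, norm_mul, norm_e, one_mul]
  refine hw.trans ?_
  -- compare `q` with `a`
  have hGle : G ≤ 2 * h * d ^ 2 := by
    have h1 : G ∣ 2 * h * d ^ 2 := by
      have h2 : Nat.Coprime G c := (Nat.Coprime.coprime_dvd_right (Nat.gcd_dvd_right _ _) hc).symm
      have h3 : G ∣ (2 * h * d ^ 2) * c := by
        have := Nat.gcd_dvd_left (2 * h * c * d ^ 2) a
        rw [← hG] at this
        convert this using 1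
        ring
      exact h2.dvd_of_dvd_mul_right h3
    exact Nat.le_of_dvd (by positivity) h1
  have hGr : (G : ℝ) ≤ 2 * h * d ^ 2 := by exact_mod_cast hGle
  have hqa : (q : ℝ) ≤ a := by
    rw [← hqGr]
    have : (1 : ℝ) ≤ G := by exact_mod_cast hGpos
    nlinarith
  have hs1 : Real.sqrt q ≤ Real.sqrt a := Real.sqrt_le_sqrt hqa
  have hsq : 0 < Real.sqrt q := Real.sqrt_pos.2 hq0
  have hsa : 0 < Real.sqrt a := Real.sqrt_pos.2 ha0
  have hs2 : Real.sqrt a ≤ Real.sqrt q * (Real.sqrt (2 * h) * d) := by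
    have h1 : Real.sqrt (2 * h) * d = Real.sqrt (2 * h * d ^ 2) := by
      rw [Real.sqrt_mul (show (0 : ℝ) ≤ 2 * h by positivity) ((d : ℝ) ^ 2), Real.sqrt_sq hd0.le]
    rw [h1, ← Real.sqrt_mul hq0.le]
    apply Real.sqrt_le_sqrt
    rw [← hqGr]
    exact mul_le_mul_of_nonneg_left hGr hq0.le
  have h1 : 6 * (N : ℝ) ^ 2 / Real.sqrt q ≤
      6 * (N : ℝ) ^ 2 * (Real.sqrt (2 * h) * d) / Real.sqrt a := by
    rw [div_le_div_iff₀ hsq hsa]
    have : (0 : ℝ) ≤ 6 * (N : ℝ) ^ 2 := by positivity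
    calc 6 * (N : ℝ) ^ 2 * Real.sqrt a ≤ 6 * (N : ℝ) ^ 2 * (Real.sqrt q * (Real.sqrt (2 * h) * d)) :=
          mul_le_mul_of_nonneg_left hs2 this
      _ = _ := by ring
  have h2 : 7 * (N : ℝ) * Real.sqrt q ≤ 7 * N * Real.sqrt a :=
    mul_le_mul_of_nonneg_left hs1 (by positivity)
  linarith

end Pool.Agent.H571.FR
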